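import Pool.Agent.H42.CPD.Main

/-! # The number of classes of planar cyclic difference sets of prime power order (MP_a74db3_co) -/

set_option autoImplicit false

namespace Pool.Agent.Results.MP_a74db3_co.NumberOfClasses

open Finset

/-- `D` is a cyclic `(q ^ 2 + q + 1, q + 1, 1)` difference set. -/
def IsPDS (q : ℕ) (D : Finset (ZMod (q ^ 2 + q + 1))) : Prop :=
  D.card = q + 1 ∧
    ∀ g : ZMod (q ^ 2 + q + 1), g ≠ 0 → ((D ×ˢ D).filter (fun p => p.1 - p.2 = g)).card = 1

/-- Equivalence of difference sets: `E = t D + s` with a unit `t`. -/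
def classSetoid (q : ℕ) : Setoid {D : Finset (ZMod (q ^ 2 + q + 1)) // IsPDS q D} where
  r D E := ∃ t : (ZMod (q ^ 2 + q + 1))ˣ, ∃ s : ZMod (q ^ 2 + q + 1),
    E.1 = D.1.image (fun x => (t : ZMod (q ^ 2 + q + 1)) * x + s)
  iseqv := by
    refine ⟨?_, ?_, ?_⟩
    · intro D
      exact ⟨1, 0, by simp⟩
    · rintro D E ⟨t, s, h⟩
      refine ⟨t⁻¹, -(((t⁻¹ : (ZMod (q ^ 2 + q + 1))ˣ) : ZMod (q ^ 2 + q + 1)) * s), ?_⟩
      rw [h, Finset.image_image]
      symm
      have : ((fun x => ((t⁻¹ : (ZMod (q ^ 2 + q + 1))ˣ) : ZMod (q ^ 2 + q + 1)) * x +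
          -(((t⁻¹ : (ZMod (q ^ 2 + q + 1))ˣ) : ZMod (q ^ 2 + q + 1)) * s)) ∘
          fun x => (t : ZMod (q ^ 2 + q + 1)) * x + s) = id := by
        funext x
        simp only [Function.comp, id]
        have h1 : ((t⁻¹ : (ZMod (q ^ 2 + q + 1))ˣ) : ZMod (q ^ 2 + q + 1)) * t = 1 := t.inv_mul
        linear_combination x * h1
      rw [this, Finset.image_id]
    · rintro D E F ⟨t, s, h⟩ ⟨t', s', h'⟩
      refine ⟨t' * t, (t' : ZMod (q ^ 2 + q + 1)) * s + s', ?_⟩
      rw [h', h, Finset.image_image]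
      congr 1
      funext x
      simp only [Function.comp, Units.val_mul]
      ring

/-- The number of equivalence classes of cyclic `(q ^ 2 + q + 1, q + 1, 1)` difference sets. -/
noncomputable def numClasses (q : ℕ) : ℕ := Nat.card (Quotient (classSetoid q))

/-- For every prime power `q = p ^ k` there are at most
`exp (600 (q log p log q) ^ (2 / 3))` equivalence classes of cyclic planar difference sets of
order `q`. -/
theorem result : ∀ p k : ℕ, p.Prime → 1 ≤ k →
    (numClasses (p ^ k) : ℝ) ≤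
      Real.exp (600 * ((p : ℝ) ^ k * Real.log p * Real.log ((p : ℝ) ^ k)) ^ (2 / 3 : ℝ)) := by
  classical
  intro p k hp hk
  set q : ℕ := p ^ k with hq
  have hv0 : NeZero (q ^ 2 + q + 1) := ⟨by omega⟩
  set 𝒟 : Finset (Finset (ZMod (q ^ 2 + q + 1))) := Finset.univ.filter
    (fun D => IsPDS q D ∧ ∀ x ∈ D, (p : ZMod (q ^ 2 + q + 1)) * x ∈ D) with h𝒟
  have hmem : ∀ D ∈ 𝒟, IsPDS q D ∧ ∀ x ∈ D, (p : ZMod (q ^ 2 + q + 1)) * x ∈ D := by
    intro D hD
    exact (Finset.mem_filter.1 hD).2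
  have h1 := Pool.Agent.H42.CPD.card_fixed_le hp hk hq rfl 𝒟 (fun D hD => (hmem D hD).1.2)
    (fun D hD => (hmem D hD).1.1) (fun D hD => (hmem D hD).2)
  -- classes are represented by elements of 𝒟
  have hcop : Nat.Coprime p (q ^ 2 + q + 1) := by
    rw [Nat.Prime.coprime_iff_not_dvd hp]
    intro h
    have h1 : p ∣ q ^ 2 + q := by
      have : p ∣ q := by rw [hq]; exact dvd_pow_self p (by omega)
      exact dvd_add (dvd_pow this (by norm_num)) this
    exact hp.one_lt.ne' (Nat.dvd_one.1 ((Nat.dvd_add_right h1).1 h))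
  have h2 : numClasses q ≤ 𝒟.card := by
    unfold numClasses
    have hsurj : Function.Surjective (fun D : {D // D ∈ 𝒟} =>
        (Quotient.mk (classSetoid q) ⟨D.1, (hmem D.1 D.2).1⟩ : Quotient (classSetoid q))) := by
      intro t
      induction t using Quotient.inductionOn with
      | h D =>
        obtain ⟨c, hc⟩ := Pool.Agent.H42.CPD.exists_fixed (v := q ^ 2 + q + 1) hp hk hq rfl D.2.2
          D.2.1 (ZMod.unitOfCoprime p hcop) (ZMod.coe_unitOfCoprime p hcop)
        rw [ZMod.coe_unitOfCoprime] at hc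
        have hE : IsPDS q (D.1.image (fun x => x + c)) := by
          refine ⟨?_, Pool.Agent.H42.CPD.IsPlanar.image_add D.2.2 c⟩
          rw [Finset.card_image_of_injective _ (add_left_injective c)]
          exact D.2.1
        refine ⟨⟨D.1.image (fun x => x + c), ?_⟩, ?_⟩
        · rw [h𝒟, Finset.mem_filter]
          exact ⟨Finset.mem_univ _, hE, hc⟩
        · apply Quotient.sound
          refine (classSetoid q).symm ⟨1, c, ?_⟩
          simp
    have h3 := Nat.card_le_card_of_surjective _ hsurj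
    rwa [Nat.card_eq_fintype_card (α := {D // D ∈ 𝒟}), Fintype.card_coe] at h3
  have hk0 : (0 : ℝ) < k := by exact_mod_cast hk
  have h4 : (p : ℝ) ^ k * Real.log p * Real.log ((p : ℝ) ^ k)
      = ((q : ℕ) : ℝ) / k * Real.log ((q : ℕ) : ℝ) ^ 2 := by
    have e1 : ((q : ℕ) : ℝ) = (p : ℝ) ^ k := by rw [hq]; push_cast; rfl
    rw [e1, Real.log_pow]
    field_simp
  rw [h4]
  refine le_trans ?_ h1
  exact_mod_cast h2

end Pool.Agent.Results.MP_a74db3_co.NumberOfClasses
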