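import Pool.Agent.H42.CPD.Trip

/-! # Rigidity of planar difference sets (MP_a74db3_co) -/

set_option autoImplicit false

namespace Pool.Agent.Results.MP_a74db3_co.Rigidity

open Finset

/-- A Sidon set `E` of a finite abelian group which contains more than three quarters of the
elements of a planar difference set `D` is contained in `D`. In particular two planar difference
sets of one group with more than three quarters of their elements in common are equal. -/
theorem result : ∀ (G : Type) [AddCommGroup G] [Fintype G] [DecidableEq G] (D E : Finset G),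
    (∀ g : G, g ≠ 0 → ((D ×ˢ D).filter (fun p => p.1 - p.2 = g)).card = 1) →
    (∀ g : G, g ≠ 0 → ((E ×ˢ E).filter (fun p => p.1 - p.2 = g)).card ≤ 1) →
    3 * D.card < 4 * (D ∩ E).card → E ⊆ D := by
  intro G _ _ _ D E hD hE hcard x hxE
  by_contra hx
  have hpl : Pool.Agent.H42.CPD.IsPlanar D := hD
  obtain ⟨β, γ, h1, h2, h3⟩ := Pool.Agent.H42.CPD.exists_beta_gamma hpl hx
  set B := D ∩ E with hB
  have hBD : B ⊆ D := Finset.inter_subset_left
  have hBE : B ⊆ E := Finset.inter_subset_right
  -- the Sidon property of E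
  have hS : ∀ a ∈ B, β a ∈ B → γ a ∈ B → False := by
    intro a ha hb hc
    have hxa : x ≠ a := fun h => hx (h ▸ hBD ha)
    have h4 : x - a = β a - γ a := by
      have := (h1 a (hBD ha)).2.2
      rw [this]
      abel
    have h5 := hE (x - a) (sub_ne_zero.2 hxa)
    have m1 : (x, a) ∈ (E ×ˢ E).filter (fun p => p.1 - p.2 = x - a) := by
      rw [Finset.mem_filter, Finset.mem_product]
      exact ⟨⟨hxE, hBE ha⟩, rfl⟩
    have m2 : (β a, γ a) ∈ (E ×ˢ E).filter (fun p => p.1 - p.2 = x - a) := by
      rw [Finset.mem_filter, Finset.mem_product]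
      exact ⟨⟨hBE hb, hBE hc⟩, h4.symm⟩
    have h6 := Finset.card_le_one.1 h5 _ m1 _ m2
    have h7 : x = β a := congrArg Prod.fst h6
    exact hx (h7 ▸ hBD hb)
  have hcov : B ⊆ (B.filter (fun a => β a ∈ D \ B)) ∪ (B.filter (fun a => γ a ∈ D \ B)) := by
    intro a ha
    rw [Finset.mem_union, Finset.mem_filter, Finset.mem_filter, Finset.mem_sdiff,
      Finset.mem_sdiff]
    by_cases h : β a ∈ B
    · right
      exact ⟨ha, (h1 a (hBD ha)).2.1, fun h' => hS a ha h h'⟩
    · left
      exact ⟨ha, (h1 a (hBD ha)).1, h⟩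
  have hc1 : (B.filter (fun a => β a ∈ D \ B)).card ≤ (D \ B).card := by
    refine Finset.card_le_card_of_injOn β ?_ ?_
    · intro a ha
      exact (Finset.mem_filter.1 ha).2
    · intro a ha b hb hab
      rw [Finset.mem_coe, Finset.mem_filter] at ha hb
      rw [← h2 a (hBD ha.1), hab, h2 b (hBD hb.1)]
  have hc2 : (B.filter (fun a => γ a ∈ D \ B)).card ≤ 2 * (D \ B).card := by
    refine Finset.card_le_mul_card_image_of_maps_to (f := γ) ?_ 2 ?_
    · intro a ha
      exact (Finset.mem_filter.1 ha).2
    · intro c _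
      rcases Finset.eq_empty_or_nonempty
        ((B.filter (fun a => γ a ∈ D \ B)).filter (fun a => γ a = c)) with h | ⟨a, ha⟩
      · rw [h]; simp
      · rw [Finset.mem_filter, Finset.mem_filter] at ha
        refine le_trans (Finset.card_le_card (t := {a, β a}) ?_) Finset.card_le_two
        intro b hb
        rw [Finset.mem_filter, Finset.mem_filter] at hb
        have := h3 a (hBD ha.1.1) b (hBD hb.1.1) (by rw [ha.2, hb.2])
        rw [Finset.mem_insert, Finset.mem_singleton]
        exact this
  have hc3 : B.card ≤ (D \ B).card + 2 * (D \ B).card :=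
    le_trans (Finset.card_le_card hcov) (le_trans (Finset.card_union_le _ _) (Nat.add_le_add hc1 hc2))
  have hc4 : (D \ B).card + B.card = D.card := Finset.card_sdiff_add_card_eq_card hBD
  omega

end Pool.Agent.Results.MP_a74db3_co.Rigidity
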